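import Pool.Agent.Helper64.PC.Silv

/-!
# Module STEP: one step of the fusion
-/

namespace Pool.Agent.Helper45.PC

open Pool.Agent.Helper64.PC Sil

open Classical in
/-- The condition `r` without the points of `Z`. -/
noncomputable def step_erase {K : Type} (r : Sil K) (Z : Finset (K × ℕ)) : Sil K where
  val ξ z := if (ξ, z) ∈ Z then none else r.val ξ z
  inf ξ := by
    refine (r.inf ξ).mono ?_
    intro z hz
    simp only [Set.mem_ofPred_eq] at hz ⊢
    by_cases h : (ξ, z) ∈ Z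
    · simp [h]
    · simpa [h] using hz
  cnt := by
    refine r.cnt.mono ?_
    rintro ξ ⟨z, hz⟩
    by_cases h : (ξ, z) ∈ Z
    · simp [h] at hz
    · exact ⟨z, by simpa [h] using hz⟩

theorem step_erase_in {K : Type} {r : Sil K} {Z : Finset (K × ℕ)} {x : K × ℕ} (h : x ∈ Z) :
    (step_erase r Z).val x.1 x.2 = none := by
  unfold step_erase
  exact if_pos h

theorem step_erase_out {K : Type} {r : Sil K} {Z : Finset (K × ℕ)} {ξ : K} {z : ℕ}
    (h : (ξ, z) ∉ Z) : (step_erase r Z).val ξ z = r.val ξ z := by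
  unfold step_erase
  exact if_neg h

theorem step_fill_in {K : Type} {r : Sil K} {Z : Finset (K × ℕ)} {σ : K × ℕ → Bool} {ξ : K}
    {z : ℕ} (h : (ξ, z) ∈ Z) : (r.fill Z σ).val ξ z = some (σ (ξ, z)) := by
  unfold fill
  exact if_pos h

theorem step_fill_out {K : Type} {r : Sil K} {Z : Finset (K × ℕ)} {σ : K × ℕ → Bool} {ξ : K}
    {z : ℕ} (h : (ξ, z) ∉ Z) : (r.fill Z σ).val ξ z = r.val ξ z := by
  unfold fill
  exact if_neg h

theorem step_fill_mono {K : Type} {p q : Sil K} {Z : Finset (K × ℕ)} {σ : K × ℕ → Bool}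
    (h : q ≤ p) : q.fill Z σ ≤ p.fill Z σ := by
  intro ξ z b hb
  by_cases hz : (ξ, z) ∈ Z
  · rw [step_fill_in hz] at hb ⊢
    exact hb
  · rw [step_fill_out hz] at hb ⊢
    exact h ξ z b hb

theorem step_fill_le {K : Type} {p : Sil K} {Z : Finset (K × ℕ)} {σ : K × ℕ → Bool}
    (h : ∀ x ∈ Z, p.val x.1 x.2 = none) : p.fill Z σ ≤ p := by
  intro ξ z b hb
  by_cases hz : (ξ, z) ∈ Z
  · rw [h (ξ, z) hz] at hb
    cases hb
  · rw [step_fill_out hz]
    exact hb

theorem step_fill_congr {K : Type} (p : Sil K) {Z : Finset (K × ℕ)} {σ τ : K × ℕ → Bool}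
    (h : ∀ x ∈ Z, σ x = τ x) : p.fill Z σ = p.fill Z τ := by
  apply Sil.ext
  funext ξ z
  by_cases hz : (ξ, z) ∈ Z
  · rw [step_fill_in hz, step_fill_in hz, h _ hz]
  · rw [step_fill_out hz, step_fill_out hz]

theorem step_fill_erase {K : Type} {q r : Sil K} {Z : Finset (K × ℕ)} {σ : K × ℕ → Bool}
    (h : r ≤ q.fill Z σ) : (step_erase r Z).fill Z σ = r := by
  apply Sil.ext
  funext ξ z
  by_cases hz : (ξ, z) ∈ Z
  · rw [step_fill_in hz]
    exact (h ξ z _ (step_fill_in hz)).symm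
  · rw [step_fill_out hz, step_erase_out hz]

theorem step_erase_le {K : Type} {q r : Sil K} {Z : Finset (K × ℕ)} {σ : K × ℕ → Bool}
    (hq : ∀ x ∈ Z, q.val x.1 x.2 = none) (h : r ≤ q.fill Z σ) : step_erase r Z ≤ q := by
  intro ξ z b hb
  by_cases hz : (ξ, z) ∈ Z
  · rw [hq (ξ, z) hz] at hb
    cases hb
  · rw [step_erase_out hz]
    exact h ξ z b (by rw [step_fill_out hz]; exact hb)

theorem st_step : ST_step := by
  classical
  intro K T V p₀ p Z hmono hdense hp hZ
  have key : ∀ 𝒜 : Finset (Finset (K × ℕ)), ∃ q ≤ p, (∀ x ∈ Z, q.val x.1 x.2 = none) ∧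
      ∃ S : Finset T, S.card ≤ 𝒜.card ∧
        ∀ A ∈ 𝒜, ∃ a ∈ S, V a (q.fill Z fun x => decide (x ∈ A)) := by
    intro 𝒜
    induction 𝒜 using Finset.induction_on with
    | empty => exact ⟨p, le_refl p, hZ, ∅, by simp, by simp⟩
    | insert A 𝒜 hA ih =>
      obtain ⟨q, hqp, hqZ, S, hS, hV⟩ := ih
      have h1 : q.fill Z (fun x => decide (x ∈ A)) ≤ p₀ :=
        (step_fill_le hqZ).trans (hqp.trans hp)
      obtain ⟨r, hr, a, ha⟩ := hdense _ h1
      refine ⟨step_erase r Z, (step_erase_le hqZ hr).trans hqp, fun x hx => step_erase_in hx,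
        insert a S, ?_, ?_⟩
      · rw [Finset.card_insert_of_notMem hA]
        exact (Finset.card_insert_le _ _).trans (Nat.add_le_add_right hS 1)
      · intro B hB
        rcases Finset.mem_insert.mp hB with rfl | hB
        · exact ⟨a, Finset.mem_insert_self _ _, by rw [step_fill_erase hr]; exact ha⟩
        · obtain ⟨b, hb, hVb⟩ := hV B hB
          exact ⟨b, Finset.mem_insert_of_mem hb,
            hmono _ _ _ hVb (step_fill_mono (step_erase_le hqZ hr))⟩
  obtain ⟨q, hqp, hqZ, S, hS, hV⟩ := key Z.powerset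
  refine ⟨q, hqp, hqZ, S, by rwa [Finset.card_powerset] at hS, fun σ => ?_⟩
  obtain ⟨a, ha, hVa⟩ := hV (Z.filter fun x => σ x = true)
    (Finset.mem_powerset.mpr (Finset.filter_subset _ _))
  refine ⟨a, ha, ?_⟩
  rw [step_fill_congr q (τ := fun x => decide (x ∈ Z.filter fun x => σ x = true))]
  · exact hVa
  · intro x hx
    by_cases h : σ x = true
    · simp [h, hx]
    · simp only [Bool.not_eq_true] at h
      simp [h]

end Pool.Agent.Helper45.PC
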